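import Pool.Agent.Helper65.RP.Defs

/-!
# Lower bound for the dimension of the spaces of polynomials modulo the vanishing ideal
-/

set_option autoImplicit false

namespace Pool.Agent.Helper62.RP

open Pool.Agent.Helper65.RP
open MvPolynomial Filter Topology

/-! ### Orders -/

section ord
variable {Ω : Type} [NormedField Ω] {𝒰 : Ultrafilter ℕ} {s : ℕ → ℝ} {u v : ℕ → Ω} {α β : ℝ}

theorem hasOrd_ge (hs : Tendsto s (𝒰 : Filter ℕ) atTop) (h : HasOrd 𝒰 s u α) :
    GeOrd 𝒰 s u α := by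
  intro ε hε
  have h1 : ∀ᶠ n in (𝒰 : Filter ℕ), α - ε < -Real.log ‖u n‖ / s n :=
    h.2.eventually (lt_mem_nhds (by linarith))
  filter_upwards [h.1, h1, hs.eventually_gt_atTop 0] with n hn h1 h2
  rw [lt_div_iff₀ h2] at h1
  have h3 : 0 < ‖u n‖ := norm_pos_iff.2 hn
  calc ‖u n‖ = Real.exp (Real.log ‖u n‖) := (Real.exp_log h3).symm
    _ ≤ _ := Real.exp_le_exp.2 (by linarith)

theorem hasOrd_le (hs : Tendsto s (𝒰 : Filter ℕ) atTop) (h : HasOrd 𝒰 s u α) (ε : ℝ)
    (hε : 0 < ε) : ∀ᶠ n in (𝒰 : Filter ℕ), Real.exp (-(α + ε) * s n) ≤ ‖u n‖ := by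
  have h1 : ∀ᶠ n in (𝒰 : Filter ℕ), -Real.log ‖u n‖ / s n < α + ε :=
    h.2.eventually (gt_mem_nhds (by linarith))
  filter_upwards [h.1, h1, hs.eventually_gt_atTop 0] with n hn h1 h2
  rw [div_lt_iff₀ h2] at h1
  have h3 : 0 < ‖u n‖ := norm_pos_iff.2 hn
  calc Real.exp (-(α + ε) * s n) ≤ Real.exp (Real.log ‖u n‖) := Real.exp_le_exp.2 (by linarith)
    _ = ‖u n‖ := Real.exp_log h3

theorem hasOrd_mul (h : HasOrd 𝒰 s u α) (h' : HasOrd 𝒰 s v β) :
    HasOrd 𝒰 s (u * v) (α + β) := by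
  refine ⟨?_, ?_⟩
  · filter_upwards [h.1, h'.1] with n h1 h2
    exact mul_ne_zero h1 h2
  · refine (h.2.add h'.2).congr' ?_
    filter_upwards [h.1, h'.1] with n h1 h2
    rw [Pi.mul_apply, norm_mul, Real.log_mul (norm_ne_zero_iff.2 h1) (norm_ne_zero_iff.2 h2)]
    ring

theorem hasOrd_const (hs : Tendsto s (𝒰 : Filter ℕ) atTop) {c : Ω} (hc : c ≠ 0) :
    HasOrd 𝒰 s (fun _ => c) 0 :=
  ⟨Eventually.of_forall fun _ => hc, hs.const_div_atTop _⟩

theorem hasOrd_pow (hs : Tendsto s (𝒰 : Filter ℕ) atTop) (h : HasOrd 𝒰 s u α) (k : ℕ) :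
    HasOrd 𝒰 s (u ^ k) (k * α) := by
  induction k with
  | zero =>
    simp only [pow_zero, Nat.cast_zero, zero_mul]
    exact hasOrd_const hs one_ne_zero
  | succ k ih =>
    have h1 := hasOrd_mul ih h
    rw [pow_succ]
    have h2 : ((k + 1 : ℕ) : ℝ) * α = k * α + α := by push_cast; ring
    rw [h2]
    exact h1

theorem hasOrd_prod (hs : Tendsto s (𝒰 : Filter ℕ) atTop) {ι : Type} (S : Finset ι)
    (f : ι → ℕ → Ω) (g : ι → ℝ) (h : ∀ i ∈ S, HasOrd 𝒰 s (f i) (g i)) :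
    HasOrd 𝒰 s (∏ i ∈ S, f i) (∑ i ∈ S, g i) := by
  classical
  induction S using Finset.induction_on with
  | empty =>
    simp only [Finset.prod_empty, Finset.sum_empty]
    exact hasOrd_const hs one_ne_zero
  | insert i S hi ih =>
    rw [Finset.prod_insert hi, Finset.sum_insert hi]
    exact hasOrd_mul (h i (Finset.mem_insert_self i S))
      (ih fun j hj => h j (Finset.mem_insert_of_mem hj))

theorem geOrd_mono (hs : Tendsto s (𝒰 : Filter ℕ) atTop) (h : GeOrd 𝒰 s u α) (hβ : β ≤ α) :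
    GeOrd 𝒰 s u β := by
  intro ε hε
  filter_upwards [h ε hε, hs.eventually_gt_atTop 0] with n h1 h2
  refine h1.trans (Real.exp_le_exp.2 ?_)
  nlinarith

theorem geOrd_mul (h : GeOrd 𝒰 s u α) (h' : GeOrd 𝒰 s v β) :
    GeOrd 𝒰 s (u * v) (α + β) := by
  intro ε hε
  filter_upwards [h (ε / 2) (by linarith), h' (ε / 2) (by linarith)] with n h1 h2
  rw [Pi.mul_apply, norm_mul]
  calc ‖u n‖ * ‖v n‖ ≤ Real.exp (-(α - ε / 2) * s n) * Real.exp (-(β - ε / 2) * s n) :=
        mul_le_mul h1 h2 (norm_nonneg _) (Real.exp_pos _).le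
    _ = Real.exp (-(α + β - ε) * s n) := by
        rw [← Real.exp_add]
        congr 1
        ring

theorem geOrd_add (hs : Tendsto s (𝒰 : Filter ℕ) atTop) (h : GeOrd 𝒰 s u α)
    (h' : GeOrd 𝒰 s v α) : GeOrd 𝒰 s (u + v) α := by
  intro ε hε
  filter_upwards [h (ε / 2) (by linarith), h' (ε / 2) (by linarith),
    hs.eventually_gt_atTop (2 * Real.log 2 / ε)] with n h1 h2 h3
  rw [div_lt_iff₀ hε] at h3
  calc ‖(u + v) n‖ ≤ ‖u n‖ + ‖v n‖ := norm_add_le _ _
    _ ≤ 2 * Real.exp (-(α - ε / 2) * s n) := by linarith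
    _ = Real.exp (Real.log 2 + -(α - ε / 2) * s n) := by
        rw [Real.exp_add, Real.exp_log (by norm_num)]
    _ ≤ Real.exp (-(α - ε) * s n) := Real.exp_le_exp.2 (by nlinarith)

theorem geOrd_zero : GeOrd 𝒰 s (0 : ℕ → Ω) α := by
  intro ε _
  refine Eventually.of_forall fun n => ?_
  simp only [Pi.zero_apply, norm_zero]
  exact (Real.exp_pos _).le

theorem geOrd_congr (h : GeOrd 𝒰 s u α) (h' : ∀ᶠ n in (𝒰 : Filter ℕ), v n = u n) :
    GeOrd 𝒰 s v α := by
  intro ε hε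
  filter_upwards [h ε hε, h'] with n h1 h2
  rw [h2]
  exact h1

theorem geOrd_const (hs : Tendsto s (𝒰 : Filter ℕ) atTop) (c : Ω) :
    GeOrd 𝒰 s (fun _ => c) 0 := by
  by_cases hc : c = 0
  · subst hc
    exact geOrd_zero
  · exact hasOrd_ge hs (hasOrd_const hs hc)

theorem geOrd_pow (hs : Tendsto s (𝒰 : Filter ℕ) atTop) (h : GeOrd 𝒰 s u α) (k : ℕ) :
    GeOrd 𝒰 s (u ^ k) (k * α) := by
  induction k with
  | zero =>
    simp only [pow_zero, Nat.cast_zero, zero_mul]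
    exact geOrd_const hs 1
  | succ k ih =>
    have h1 := geOrd_mul ih h
    rw [pow_succ]
    have h2 : ((k + 1 : ℕ) : ℝ) * α = k * α + α := by push_cast; ring
    rw [h2]
    exact h1

theorem geOrd_prod (hs : Tendsto s (𝒰 : Filter ℕ) atTop) {ι : Type} (S : Finset ι)
    (f : ι → ℕ → Ω) (g : ι → ℝ) (h : ∀ i ∈ S, GeOrd 𝒰 s (f i) (g i)) :
    GeOrd 𝒰 s (∏ i ∈ S, f i) (∑ i ∈ S, g i) := by
  classical
  induction S using Finset.induction_on with
  | empty =>
    simp only [Finset.prod_empty, Finset.sum_empty]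
    exact geOrd_const hs 1
  | insert i S hi ih =>
    rw [Finset.prod_insert hi, Finset.sum_insert hi]
    exact geOrd_mul (h i (Finset.mem_insert_self i S))
      (ih fun j hj => h j (Finset.mem_insert_of_mem hj))

theorem geOrd_sum (hs : Tendsto s (𝒰 : Filter ℕ) atTop) {ι : Type} (S : Finset ι)
    (f : ι → ℕ → Ω) (h : ∀ i ∈ S, GeOrd 𝒰 s (f i) α) :
    GeOrd 𝒰 s (∑ i ∈ S, f i) α := by
  classical
  induction S using Finset.induction_on with
  | empty =>
    simp only [Finset.sum_empty]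
    exact geOrd_zero
  | insert i S hi ih =>
    rw [Finset.sum_insert hi]
    exact geOrd_add hs (h i (Finset.mem_insert_self i S))
      (ih fun j hj => h j (Finset.mem_insert_of_mem hj))

theorem gtOrd_sum (hs : Tendsto s (𝒰 : Filter ℕ) atTop) {ι : Type} (S : Finset ι)
    (f : ι → ℕ → Ω) (h : ∀ i ∈ S, ∃ β, α < β ∧ GeOrd 𝒰 s (f i) β) :
    ∃ β, α < β ∧ GeOrd 𝒰 s (∑ i ∈ S, f i) β := by
  classical
  induction S using Finset.induction_on with
  | empty =>
    simp only [Finset.sum_empty]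
    exact ⟨α + 1, by linarith, geOrd_zero⟩
  | insert i S hi ih =>
    obtain ⟨b, hb, h1⟩ := h i (Finset.mem_insert_self i S)
    obtain ⟨b', hb', h2⟩ := ih fun j hj => h j (Finset.mem_insert_of_mem hj)
    rw [Finset.sum_insert hi]
    exact ⟨min b b', lt_min hb hb', geOrd_add hs (geOrd_mono hs h1 (min_le_left _ _))
      (geOrd_mono hs h2 (min_le_right _ _))⟩

theorem hasOrd_add (hs : Tendsto s (𝒰 : Filter ℕ) atTop) (h : HasOrd 𝒰 s u α)
    (h' : GeOrd 𝒰 s v β) (hαβ : α < β) : HasOrd 𝒰 s (u + v) α := by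
  set ε := (β - α) / 3 with hε
  have hε0 : 0 < ε := by rw [hε]; linarith
  have hβ : β = α + 3 * ε := by rw [hε]; ring
  have key : ∀ᶠ n in (𝒰 : Filter ℕ), ‖v n‖ ≤ ‖u n‖ / 2 := by
    filter_upwards [h' ε hε0, hasOrd_le hs h ε hε0,
      hs.eventually_gt_atTop (Real.log 2 / ε)] with n h1 h2 h3
    rw [div_lt_iff₀ hε0] at h3
    have h4 : Real.exp (-(β - ε) * s n) ≤ Real.exp (-(α + ε) * s n) / 2 := by
      calc Real.exp (-(β - ε) * s n) ≤ Real.exp (-(α + ε) * s n + -Real.log 2) :=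
            Real.exp_le_exp.2 (by rw [hβ]; nlinarith)
        _ = Real.exp (-(α + ε) * s n) / 2 := by
            rw [Real.exp_add, Real.exp_neg (Real.log 2), Real.exp_log (by norm_num)]
            ring
    linarith
  have key2 : ∀ᶠ n in (𝒰 : Filter ℕ), ‖u n‖ / 2 ≤ ‖(u + v) n‖ ∧ ‖(u + v) n‖ ≤ 2 * ‖u n‖ := by
    filter_upwards [key] with n h1
    have h2 : ‖u n‖ ≤ ‖(u + v) n‖ + ‖v n‖ := by
      have : u n = (u + v) n - v n := by rw [Pi.add_apply]; ring
      calc ‖u n‖ = ‖(u + v) n - v n‖ := by rw [← this]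
        _ ≤ _ := norm_sub_le _ _
    have h3 : ‖(u + v) n‖ ≤ ‖u n‖ + ‖v n‖ := norm_add_le _ _
    have h4 := norm_nonneg (u n)
    constructor <;> linarith
  have hne : ∀ᶠ n in (𝒰 : Filter ℕ), (u + v) n ≠ 0 := by
    filter_upwards [key2, h.1] with n h1 h2 h3
    rw [h3, norm_zero] at h1
    have := norm_pos_iff.2 h2
    linarith [h1.1]
  refine ⟨hne, ?_⟩
  have h0 : Tendsto (fun n => Real.log 2 / s n) (𝒰 : Filter ℕ) (𝓝 0) := hs.const_div_atTop _
  have h1 : Tendsto (fun n => -Real.log ‖u n‖ / s n - Real.log 2 / s n) (𝒰 : Filter ℕ) (𝓝 α) := by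
    have := h.2.sub h0
    rwa [sub_zero] at this
  have h2 : Tendsto (fun n => -Real.log ‖u n‖ / s n + Real.log 2 / s n) (𝒰 : Filter ℕ) (𝓝 α) := by
    have := h.2.add h0
    rwa [add_zero] at this
  refine tendsto_of_tendsto_of_tendsto_of_le_of_le' h1 h2 ?_ ?_
  · filter_upwards [key2, h.1, hne, hs.eventually_gt_atTop 0] with n h3 h4 h5 h6
    rw [← sub_div, div_le_div_iff_of_pos_right h6]
    have h7 : Real.log ‖(u + v) n‖ ≤ Real.log (2 * ‖u n‖) :=
      Real.log_le_log (norm_pos_iff.2 h5) h3.2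
    rw [Real.log_mul (by norm_num) (norm_ne_zero_iff.2 h4)] at h7
    linarith
  · filter_upwards [key2, h.1, hne, hs.eventually_gt_atTop 0] with n h3 h4 h5 h6
    rw [← add_div, div_le_div_iff_of_pos_right h6]
    have h7 : Real.log (‖u n‖ / 2) ≤ Real.log ‖(u + v) n‖ :=
      Real.log_le_log (by have := norm_pos_iff.2 h4; linarith) h3.1
    rw [Real.log_div (norm_ne_zero_iff.2 h4) (by norm_num)] at h7
    linarith

end ord

/-! ### The valuations of the conjugates -/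

theorem totalDegree_map' {Kb : Type} [Field Kb] {N : ℕ} (f : Kb →+* Kb)
    (p : MvPolynomial (Fin N) Kb) : (MvPolynomial.map f p).totalDegree ≤ p.totalDegree :=
  totalDegree_le_of_support_subset (support_map_subset f p)

section pol
variable {K Kb Ω : Type} [Field K] [Field Kb] [Algebra K Kb]
  [NormedField Ω] [Algebra K Ω] [Algebra Kb Ω] [IsScalarTower K Kb Ω] {N : ℕ}
  {𝒰 : Ultrafilter ℕ} {s : ℕ → ℝ} {z : ℕ → Fin N → K} {i₀ : Fin N}

theorem ev_ge (hs : Tendsto s (𝒰 : Filter ℕ) atTop)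
    (hz : ∀ i, GeOrd 𝒰 s (fun n => algebraMap K Ω (z n i)) (-1))
    (p : MvPolynomial (Fin N) Kb) : GeOrd 𝒰 s (ev Ω z p) (-(p.totalDegree : ℝ)) := by
  have h1 : ev Ω z p = ∑ d ∈ p.support, (fun _ => algebraMap Kb Ω (p.coeff d)) *
      ∏ i, (fun n => algebraMap K Ω (z n i)) ^ d i := by
    funext n
    rw [ev, MvPolynomial.eval_eq', map_sum, Finset.sum_apply]
    refine Finset.sum_congr rfl fun d _ => ?_
    rw [map_mul, map_prod, Pi.mul_apply, Finset.prod_apply]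
    congr 1
    refine Finset.prod_congr rfl fun i _ => ?_
    rw [map_pow, Pi.pow_apply, ← IsScalarTower.algebraMap_apply]
  rw [h1]
  refine geOrd_sum hs _ _ fun d hd => ?_
  have h2 : GeOrd 𝒰 s (∏ i, (fun n => algebraMap K Ω (z n i)) ^ d i)
      (∑ i, (d i : ℝ) * (-1)) :=
    geOrd_prod hs _ _ _ fun i _ => geOrd_pow hs (hz i) (d i)
  have h3 := geOrd_mul (geOrd_const hs (algebraMap Kb Ω (p.coeff d))) h2
  refine geOrd_mono hs h3 ?_
  have h4 : (d.sum fun _ e => e) ≤ p.totalDegree := le_totalDegree hd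
  rw [Finsupp.sum_fintype _ _ (fun _ => rfl)] at h4
  have h5 : (∑ i, (d i : ℝ)) ≤ p.totalDegree := by exact_mod_cast h4
  rw [← Finset.sum_mul]
  linarith

/-- The evaluation of the conjugate polynomials. -/
noncomputable def wh (Ω : Type) [NormedField Ω] [Algebra Kb Ω] (z : ℕ → Fin N → K)
    (σ : Kb ≃ₐ[K] Kb) : MvPolynomial (Fin N) Kb →+* (ℕ → Ω) :=
  RingHom.pi fun n => (algebraMap Kb Ω).comp
    ((eval (fun i => algebraMap K Kb (z n i))).comp (MvPolynomial.map (σ.symm : Kb →+* Kb)))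

theorem wh_eq (σ : Kb ≃ₐ[K] Kb) (p : MvPolynomial (Fin N) Kb) :
    wh Ω z σ p = ev Ω z (MvPolynomial.map (σ.symm : Kb →+* Kb) p) := rfl

theorem wh_zero (σ : Kb ≃ₐ[K] Kb) (p : MvPolynomial (Fin N) Kb) (n : ℕ)
    (h : eval (fun i => algebraMap K Kb (z n i)) p = 0) : wh Ω z σ p n = 0 := by
  have h1 : (eval (fun i => algebraMap K Kb (z n i))).comp (MvPolynomial.map (σ.symm : Kb →+* Kb)) =
      (σ.symm : Kb →+* Kb).comp (eval (fun i => algebraMap K Kb (z n i))) := by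
    apply MvPolynomial.ringHom_ext
    · intro c
      simp
    · intro i
      simp
  have h2 : eval (fun i => algebraMap K Kb (z n i)) (MvPolynomial.map (σ.symm : Kb →+* Kb) p) =
      (σ.symm : Kb →+* Kb) (eval (fun i => algebraMap K Kb (z n i)) p) := RingHom.congr_fun h1 p
  rw [wh_eq, ev, h2, h, map_zero, map_zero]

theorem wh_C (σ : Kb ≃ₐ[K] Kb) (c : Kb) :
    wh Ω z σ (C c) = fun _ => algebraMap Kb Ω (σ.symm c) := by
  funext n
  simp [wh_eq, ev]

theorem wh_map (σ : Kb ≃ₐ[K] Kb) (p : MvPolynomial (Fin N) Kb) :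
    wh Ω z σ (MvPolynomial.map (σ : Kb →+* Kb) p) = ev Ω z p := by
  rw [wh_eq, MvPolynomial.map_map]
  have h1 : ((σ.symm : Kb →+* Kb).comp (σ : Kb →+* Kb)) = RingHom.id Kb := by
    ext x
    simp
  rw [h1, MvPolynomial.map_id]

theorem wh_X (σ : Kb ≃ₐ[K] Kb) (i : Fin N) :
    wh Ω z σ (X i) = fun n => algebraMap K Ω (z n i) := by
  funext n
  simp [wh_eq, ev, ← IsScalarTower.algebraMap_apply]

theorem wh_ge (hs : Tendsto s (𝒰 : Filter ℕ) atTop)
    (hz : ∀ i, GeOrd 𝒰 s (fun n => algebraMap K Ω (z n i)) (-1)) (σ : Kb ≃ₐ[K] Kb)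
    (p : MvPolynomial (Fin N) Kb) : GeOrd 𝒰 s (wh Ω z σ p) (-(p.totalDegree : ℝ)) := by
  rw [wh_eq]
  refine geOrd_mono hs (ev_ge hs hz _) ?_
  have h1 : (MvPolynomial.map (σ.symm : Kb →+* Kb) p).totalDegree ≤ p.totalDegree := totalDegree_map' _ _
  have h2 : ((MvPolynomial.map (σ.symm : Kb →+* Kb) p).totalDegree : ℝ) ≤ p.totalDegree := by exact_mod_cast h1
  linarith

/-! ### The dimension -/

theorem finite_restrict (K : Type) [Field K] (N D : ℕ) :
    Module.Finite K (restrictTotalDegree (Fin N) K D) := by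
  have h1 : Set.Finite {n : Fin N →₀ ℕ | (n.sum fun _ e => e) ≤ D} := by
    refine (Finsupp.finite_of_degree_le (σ := Fin N) D).subset ?_
    intro n hn
    exact hn
  have : Finite {n : Fin N →₀ ℕ | (n.sum fun _ e => e) ≤ D} := h1
  exact Module.Finite.of_basis (basisRestrictSupport K {n : Fin N →₀ ℕ | (n.sum fun _ e => e) ≤ D})

theorem card_le_rho (D : ℕ) {ι : Type} [Fintype ι] (T : ι → MvPolynomial (Fin N) Kb)
    (hT : ∀ i, (T i).totalDegree ≤ D)
    (hind : ∀ c : ι → Kb, (∀ᶠ n in (𝒰 : Filter ℕ),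
      eval (fun l => algebraMap K Kb (z n l)) (∑ i, C (c i) * T i) = 0) → ∀ i, c i = 0) :
    Fintype.card ι ≤ rho (van 𝒰 z) D := by
  classical
  have := finite_restrict K N D
  set V : Submodule K (MvPolynomial (Fin N) K ⧸ van 𝒰 z) :=
    (restrictTotalDegree (Fin N) K D).map (Ideal.Quotient.mkₐ K (van 𝒰 z)).toLinearMap with hV
  have : Module.Finite K V := Module.Finite.map _ _
  have b : Module.Basis (Fin (Module.finrank K V)) K V := Module.finBasis K V
  have hrho : rho (van 𝒰 z) D = Module.finrank K V := rfl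
  rw [hrho]
  have hB : ∀ k, ∃ B : MvPolynomial (Fin N) K, B ∈ restrictTotalDegree (Fin N) K D ∧
      Ideal.Quotient.mk (van 𝒰 z) B = (b k : MvPolynomial (Fin N) K ⧸ van 𝒰 z) := by
    intro k
    obtain ⟨B, h1, h2⟩ := (b k).2
    exact ⟨B, h1, h2⟩
  choose B hB1 hB2 using hB
  -- monomials
  have hmon : ∀ F : MvPolynomial (Fin N) K, F ∈ restrictTotalDegree (Fin N) K D →
      ∃ c : Fin (Module.finrank K V) → K, ∀ᶠ n in (𝒰 : Filter ℕ),
        eval (z n) F = ∑ k, c k * eval (z n) (B k) := by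
    intro F hF
    have h1 : Ideal.Quotient.mk (van 𝒰 z) F ∈ V := ⟨F, hF, rfl⟩
    refine ⟨fun k => b.repr ⟨_, h1⟩ k, ?_⟩
    have h2 := congrArg (Subtype.val) (b.sum_repr ⟨_, h1⟩)
    have h3 : Ideal.Quotient.mk (van 𝒰 z) F =
        Ideal.Quotient.mk (van 𝒰 z) (∑ k, C (b.repr ⟨_, h1⟩ k) * B k) := by
      rw [map_sum]
      refine Eq.trans h2.symm ?_
      rw [AddSubmonoidClass.coe_finsetSum]
      refine Finset.sum_congr rfl fun k _ => ?_
      rw [Submodule.coe_smul, ← hB2 k, ← MvPolynomial.smul_eq_C_mul]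
      rfl
    have h4 := Ideal.Quotient.eq.1 h3
    have h5 : ∀ᶠ n in (𝒰 : Filter ℕ), eval (z n) (F - ∑ k, C (b.repr ⟨_, h1⟩ k) * B k) = 0 := h4
    filter_upwards [h5] with n h6
    rw [map_sub, sub_eq_zero] at h6
    rw [h6, map_sum]
    refine Finset.sum_congr rfl fun k _ => ?_
    rw [map_mul, eval_C]
  have hTk : ∀ i, ∃ t : Fin (Module.finrank K V) → Kb, ∀ᶠ n in (𝒰 : Filter ℕ),
      eval (fun l => algebraMap K Kb (z n l)) (T i) =
        ∑ k, t k * algebraMap K Kb (eval (z n) (B k)) := by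
    intro i
    have h1 : ∀ d ∈ (T i).support, ∃ c : Fin (Module.finrank K V) → K, ∀ᶠ n in (𝒰 : Filter ℕ),
        eval (z n) (monomial d 1 : MvPolynomial (Fin N) K) = ∑ k, c k * eval (z n) (B k) := by
      intro d hd
      apply hmon
      rw [mem_restrictTotalDegree]
      refine (totalDegree_monomial_le _ _).trans ?_
      exact (le_totalDegree hd).trans (hT i)
    choose! c hc using h1
    refine ⟨fun k => ∑ d ∈ (T i).support, (T i).coeff d * algebraMap K Kb (c d k), ?_⟩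
    have h2 : ∀ᶠ n in (𝒰 : Filter ℕ), ∀ d ∈ (T i).support,
        eval (z n) (monomial d 1 : MvPolynomial (Fin N) K) = ∑ k, c d k * eval (z n) (B k) :=
      (Finset.eventually_all _).2 hc
    filter_upwards [h2] with n h3
    rw [MvPolynomial.eval_eq']
    simp only [Finset.sum_mul]
    rw [Finset.sum_comm]
    refine Finset.sum_congr rfl fun d hd => ?_
    have h4 := h3 d hd
    rw [eval_monomial, one_mul, Finsupp.prod_fintype _ _ (fun _ => pow_zero _)] at h4
    have h5 := congrArg (algebraMap K Kb) h4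
    rw [map_prod, map_sum] at h5
    simp only [map_pow, map_mul] at h5
    rw [h5, Finset.mul_sum]
    refine Finset.sum_congr rfl fun k _ => ?_
    ring
  choose t ht using hTk
  have hli : LinearIndependent Kb t := by
    rw [Fintype.linearIndependent_iff]
    intro c hc
    apply hind
    have h1 : ∀ᶠ n in (𝒰 : Filter ℕ), ∀ i, eval (fun l => algebraMap K Kb (z n l)) (T i) =
        ∑ k, t i k * algebraMap K Kb (eval (z n) (B k)) := Filter.eventually_all.2 ht
    filter_upwards [h1] with n h2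
    rw [map_sum]
    simp only [map_mul, eval_C]
    have h3 : ∀ k, ∑ i, c i * t i k = 0 := by
      intro k
      have := congrFun hc k
      simpa using this
    calc ∑ i, c i * eval (fun l => algebraMap K Kb (z n l)) (T i)
        = ∑ i, ∑ k, (c i * t i k) * algebraMap K Kb (eval (z n) (B k)) := by
          refine Finset.sum_congr rfl fun i _ => ?_
          rw [h2 i, Finset.mul_sum]
          refine Finset.sum_congr rfl fun k _ => ?_
          ring
      _ = ∑ k, (∑ i, c i * t i k) * algebraMap K Kb (eval (z n) (B k)) := by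
          rw [Finset.sum_comm]
          refine Finset.sum_congr rfl fun k _ => ?_
          rw [Finset.sum_mul]
      _ = 0 := by
          refine Finset.sum_eq_zero fun k _ => ?_
          rw [h3 k, zero_mul]
  have h1 := hli.fintype_card_le_finrank
  simpa using h1

end pol

/-! ### The theorem -/

section D
variable {K Kb Ω : Type} [Field K] [Field Kb] [Algebra K Kb] [IsAlgClosure K Kb]
  [NormedField Ω] [IsAlgClosed Ω] [Algebra K Ω] [Algebra Kb Ω] [IsScalarTower K Kb Ω] {N : ℕ}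
  {𝒰 : Ultrafilter ℕ} {s : ℕ → ℝ} {z : ℕ → Fin N → K} {i₀ : Fin N}

/-- E -/
theorem lower_bound (h : Lev Ω 𝒰 s z i₀) {a : ℕ} {A : Fin a → MvPolynomial (Fin N) Kb}
    {α : Fin a → ℝ} (hA : ∀ j, HasOrd 𝒰 s (ev Ω z (A j)) (α j))
    (hα : ∀ j j', j ≠ j' → ∀ k : ℤ, α j - α j' ≠ k)
    (hval : ∀ p : MvPolynomial (Fin N) Kb, (∀ᶠ n in (𝒰 : Filter ℕ), ev Ω z p n = 0) ∨
        ∃ k : ℤ, HasOrd 𝒰 s (ev Ω z p) ((k : ℝ) / a))
    {q : Fin N → Kb} (hq : IsCenter Ω 𝒰 s z i₀ q) {r : ℕ} (σ : Fin r → (Kb ≃ₐ[K] Kb))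
    (hσ : ∀ i j, i ≠ j → (fun l => σ i (q l)) ≠ (fun l => σ j (q l))) :
    ∃ C : ℕ, ∀ D, r * a * (D - C) ≤ rho (van 𝒰 z) D := by
  classical
  have hs := h.hs
  have hN : Nonempty (Fin N) := ⟨i₀⟩
  -- the rate of convergence to the centre
  obtain ⟨κ, hκ0, hκ⟩ : ∃ κ : ℝ, 0 < κ ∧
      ∀ l, GeOrd 𝒰 s (ev Ω z (X l - C (q l) * X i₀)) (-1 + κ) := by
    have h1 : ∀ l, ∃ β : ℝ, -1 < β ∧ GeOrd 𝒰 s (ev Ω z (X l - C (q l) * X i₀)) β := by
      intro l
      rcases hq.2 l with h2 | ⟨β, h2, h3⟩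
      · exact ⟨0, by norm_num, geOrd_congr geOrd_zero h2⟩
      · exact ⟨β, h2, hasOrd_ge hs h3⟩
    choose β hβ1 hβ2 using h1
    obtain ⟨l₀, -, hl₀⟩ := Finset.exists_min_image (Finset.univ : Finset (Fin N)) β
      ⟨i₀, Finset.mem_univ _⟩
    refine ⟨β l₀ + 1, by linarith [hβ1 l₀], fun l => ?_⟩
    exact geOrd_mono hs (hβ2 l) (by linarith [hl₀ l (Finset.mem_univ _)])
  obtain ⟨c, hc⟩ : ∃ c : ℕ, ∀ j, α j + ((A j).totalDegree : ℝ) < c * κ := by
    obtain ⟨c, hc⟩ := exists_nat_gt ((∑ j, |α j + ((A j).totalDegree : ℝ)|) / κ)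
    refine ⟨c, fun j => ?_⟩
    rw [div_lt_iff₀ hκ0] at hc
    refine lt_of_le_of_lt ?_ hc
    exact (le_abs_self _).trans (Finset.single_le_sum
      (f := fun j => |α j + ((A j).totalDegree : ℝ)|) (fun _ _ => abs_nonneg _)
      (Finset.mem_univ j))
  have hl : ∀ i j, i ≠ j → ∃ l, σ i (q l) ≠ σ j (q l) := by
    intro i j hij
    exact Function.ne_iff.1 (hσ i j hij)
  choose! l hl using hl
  set L : Fin r → Fin r → MvPolynomial (Fin N) Kb :=
    fun i j => X (l i j) - C (σ j (q (l i j))) * X i₀ with hL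
  have hLdeg : ∀ i j, (L i j).totalDegree ≤ 1 := by
    intro i j
    refine (totalDegree_sub _ _).trans (max_le (totalDegree_X _).le ?_)
    refine (totalDegree_mul _ _).trans ?_
    rw [totalDegree_C, totalDegree_X]
  -- the values of the linear forms
  have hLj : ∀ i j, GeOrd 𝒰 s (wh Ω z (σ j) (L i j)) (-1 + κ) := by
    intro i j
    have h1 : wh Ω z (σ j) (L i j) = ev Ω z (X (l i j) - C (q (l i j)) * X i₀) := by
      have h2 : L i j = MvPolynomial.map (σ j : Kb →+* Kb) (X (l i j) - C (q (l i j)) * X i₀) := by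
        rw [map_sub, map_mul, MvPolynomial.map_X, MvPolynomial.map_X, MvPolynomial.map_C]
        rfl
      rw [h2, wh_map]
    rw [h1]
    exact hκ _
  have hLi : ∀ i j, i ≠ j → HasOrd 𝒰 s (wh Ω z (σ i) (L i j)) (-1) := by
    intro i j hij
    have h1 : L i j = MvPolynomial.map (σ i : Kb →+* Kb) (X (l i j) - C (q (l i j)) * X i₀) +
        C (σ i (q (l i j)) - σ j (q (l i j))) * X i₀ := by
      rw [map_sub, map_mul, MvPolynomial.map_X, MvPolynomial.map_X, MvPolynomial.map_C, C_sub, hL]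
      simp only [RingHom.coe_coe]
      ring
    rw [h1, map_add, wh_map, map_mul, wh_C, wh_X, add_comm]
    refine hasOrd_add hs ?_ (hκ _) (by linarith)
    have h2 := hasOrd_mul (hasOrd_const (Ω := Ω) hs (c := algebraMap Kb Ω
      ((σ i).symm (σ i (q (l i j)) - σ j (q (l i j))))) ?_) h.top
    · rwa [zero_add] at h2
    · intro h3
      rw [map_eq_zero, map_eq_zero, sub_eq_zero] at h3
      exact hl i j hij h3
  -- the products
  set E : Fin r → MvPolynomial (Fin N) Kb :=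
    fun i => ∏ j ∈ Finset.univ.erase i, L i j ^ c with hE
  have hEdeg : ∀ i, (E i).totalDegree ≤ (r - 1) * c := by
    intro i
    refine (totalDegree_finsetProd _ _).trans ?_
    refine (Finset.sum_le_card_nsmul _ _ c fun j _ => ?_).trans ?_
    · refine (totalDegree_pow _ _).trans ?_
      calc c * (L i j).totalDegree ≤ c * 1 := Nat.mul_le_mul_left _ (hLdeg i j)
        _ = c := mul_one c
    · rw [Finset.card_erase_of_mem (Finset.mem_univ i), Finset.card_univ, Fintype.card_fin,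
        smul_eq_mul]
  have hEi : ∀ i, HasOrd 𝒰 s (wh Ω z (σ i) (E i)) (-(((r - 1 : ℕ) : ℝ) * c)) := by
    intro i
    have h1 : wh Ω z (σ i) (E i) = ∏ j ∈ Finset.univ.erase i, (wh Ω z (σ i) (L i j)) ^ c := by
      rw [hE, map_prod]
      exact Finset.prod_congr rfl fun j _ => map_pow _ _ _
    have h2 := hasOrd_prod hs (Finset.univ.erase i) (fun j => (wh Ω z (σ i) (L i j)) ^ c)
      (fun _ => (c : ℝ) * (-1)) (fun j hj => hasOrd_pow hs
        (hLi i j (Finset.ne_of_mem_erase hj).symm) c)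
    rw [h1]
    rw [Finset.sum_const, Finset.card_erase_of_mem (Finset.mem_univ i), Finset.card_univ,
      Fintype.card_fin, nsmul_eq_mul] at h2
    have h3 : (((r - 1 : ℕ) : ℝ) * ((c : ℝ) * (-1))) = -(((r - 1 : ℕ) : ℝ) * c) := by ring
    rwa [h3] at h2
  have hEo : ∀ i' i, i' ≠ i →
      GeOrd 𝒰 s (wh Ω z (σ i') (E i)) (-(((r - 1 : ℕ) : ℝ) * c) + c * κ) := by
    intro i' i hii
    have h1 : wh Ω z (σ i') (E i) = ∏ j ∈ Finset.univ.erase i, (wh Ω z (σ i') (L i j)) ^ c := by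
      rw [hE, map_prod]
      exact Finset.prod_congr rfl fun j _ => map_pow _ _ _
    have h2 := geOrd_prod hs (Finset.univ.erase i) (fun j => (wh Ω z (σ i') (L i j)) ^ c)
      (fun j => (c : ℝ) * (-1) + if j = i' then c * κ else 0) (fun j hj => by
        by_cases hj' : j = i'
        · subst hj'
          rw [if_pos rfl]
          have := geOrd_pow hs (hLj i j) c
          rw [mul_add] at this
          exact this
        · rw [if_neg hj', add_zero]
          have h3 : GeOrd 𝒰 s (wh Ω z (σ i') (L i j)) (-1) := by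
            refine geOrd_mono hs (wh_ge hs h.ge _ _) ?_
            have : ((L i j).totalDegree : ℝ) ≤ 1 := by exact_mod_cast hLdeg i j
            linarith
          exact geOrd_pow hs h3 c)
    rw [h1]
    rw [Finset.sum_add_distrib, Finset.sum_const, Finset.card_erase_of_mem (Finset.mem_univ i),
      Finset.card_univ, Fintype.card_fin, nsmul_eq_mul, Finset.sum_ite_eq',
      if_pos (Finset.mem_erase.2 ⟨hii, Finset.mem_univ _⟩)] at h2
    have h3 : (((r - 1 : ℕ) : ℝ) * ((c : ℝ) * (-1))) + c * κ =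
      -(((r - 1 : ℕ) : ℝ) * c) + c * κ := by ring
    rwa [h3] at h2
  -- the family
  refine ⟨(r - 1) * c + Finset.univ.sup (fun j => (A j).totalDegree), fun D => ?_⟩
  set D' := D - ((r - 1) * c + Finset.univ.sup (fun j => (A j).totalDegree)) with hD'
  set T : Fin r × Fin a × Fin D' → MvPolynomial (Fin N) Kb :=
    fun x => E x.1 * MvPolynomial.map (σ x.1 : Kb →+* Kb) (A x.2.1) * X i₀ ^ (x.2.2 : ℕ) with hT
  have hTdeg : ∀ x, (T x).totalDegree ≤ D := by
    intro x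
    have h1 : (MvPolynomial.map (σ x.1 : Kb →+* Kb) (A x.2.1)).totalDegree ≤
        Finset.univ.sup (fun j => (A j).totalDegree) :=
      (totalDegree_map' _ _).trans (Finset.le_sup (f := fun j => (A j).totalDegree)
        (Finset.mem_univ x.2.1))
    have h2 := (totalDegree_mul (E x.1 * MvPolynomial.map (σ x.1 : Kb →+* Kb) (A x.2.1))
      (X i₀ ^ (x.2.2 : ℕ)))
    have h3 := totalDegree_mul (E x.1) (MvPolynomial.map (σ x.1 : Kb →+* Kb) (A x.2.1))
    have h4 : (X i₀ ^ (x.2.2 : ℕ) : MvPolynomial (Fin N) Kb).totalDegree = x.2.2 :=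
      totalDegree_X_pow _ _
    have h5 := hEdeg x.1
    have h6 := x.2.2.2
    have h7 : (T x).totalDegree = (E x.1 * MvPolynomial.map (σ x.1 : Kb →+* Kb) (A x.2.1) *
      (X i₀ ^ (x.2.2 : ℕ))).totalDegree := rfl
    omega
  have hTi : ∀ x : Fin r × Fin a × Fin D', HasOrd 𝒰 s (wh Ω z (σ x.1) (T x))
      (-(((r - 1 : ℕ) : ℝ) * c) + α x.2.1 - (x.2.2 : ℕ)) := by
    intro x
    have h1 : wh Ω z (σ x.1) (T x) = wh Ω z (σ x.1) (E x.1) * ev Ω z (A x.2.1) *
        (fun n => algebraMap K Ω (z n i₀)) ^ (x.2.2 : ℕ) := by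
      rw [hT]
      simp only []
      rw [map_mul, map_mul, wh_map, map_pow, wh_X]
    rw [h1]
    have h2 := hasOrd_mul (hasOrd_mul (hEi x.1) (hA x.2.1)) (hasOrd_pow hs h.top (x.2.2 : ℕ))
    have h3 : -(((r - 1 : ℕ) : ℝ) * c) + α x.2.1 + ((x.2.2 : ℕ) : ℝ) * (-1) =
      -(((r - 1 : ℕ) : ℝ) * c) + α x.2.1 - (x.2.2 : ℕ) := by ring
    rwa [h3] at h2
  have hTo : ∀ (i' : Fin r) (x : Fin r × Fin a × Fin D'), i' ≠ x.1 →
      ∃ β, -(((r - 1 : ℕ) : ℝ) * c) + α x.2.1 - (x.2.2 : ℕ) < β ∧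
        GeOrd 𝒰 s (wh Ω z (σ i') (T x)) β := by
    intro i' x hix
    have h1 : wh Ω z (σ i') (T x) = wh Ω z (σ i') (E x.1) *
        wh Ω z (σ i') (MvPolynomial.map (σ x.1 : Kb →+* Kb) (A x.2.1)) *
        (fun n => algebraMap K Ω (z n i₀)) ^ (x.2.2 : ℕ) := by
      rw [hT]
      simp only []
      rw [map_mul, map_mul, map_pow, wh_X]
    rw [h1]
    have h2 := geOrd_mul (geOrd_mul (hEo i' x.1 hix)
      (wh_ge (Ω := Ω) hs h.ge (σ i') (MvPolynomial.map (σ x.1 : Kb →+* Kb) (A x.2.1))))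
      (geOrd_pow hs (hasOrd_ge hs h.top) (x.2.2 : ℕ))
    refine ⟨_, ?_, h2⟩
    have h3 : ((MvPolynomial.map (σ x.1 : Kb →+* Kb) (A x.2.1)).totalDegree : ℝ) ≤
        (A x.2.1).totalDegree := by exact_mod_cast totalDegree_map' _ _
    have h4 := hc x.2.1
    linarith
  have hcard : r * a * D' = Fintype.card (Fin r × Fin a × Fin D') := by
    simp [mul_assoc]
  rw [hcard]
  refine card_le_rho D T hTdeg fun lam hlam => ?_
  by_contra hne
  push Not at hne
  obtain ⟨x₁, hx₁⟩ := hne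
  set S : Finset (Fin r × Fin a × Fin D') := Finset.univ.filter (fun x => lam x ≠ 0) with hS
  obtain ⟨x₀, hx₀, hmin⟩ := Finset.exists_min_image S
    (fun x => -(((r - 1 : ℕ) : ℝ) * c) + α x.2.1 - (x.2.2 : ℕ))
    ⟨x₁, Finset.mem_filter.2 ⟨Finset.mem_univ _, hx₁⟩⟩
  have hx₀' : lam x₀ ≠ 0 := (Finset.mem_filter.1 hx₀).2
  -- the sum
  have hsum : ∀ᶠ n in (𝒰 : Filter ℕ), wh Ω z (σ x₀.1) (∑ x, C (lam x) * T x) n = 0 := by
    filter_upwards [hlam] with n h1
    exact wh_zero _ _ n h1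
  have hsplit : wh Ω z (σ x₀.1) (∑ x, C (lam x) * T x) =
      wh Ω z (σ x₀.1) (C (lam x₀) * T x₀) +
        ∑ x ∈ Finset.univ.erase x₀, wh Ω z (σ x₀.1) (C (lam x) * T x) := by
    rw [map_sum, ← Finset.add_sum_erase _ _ (Finset.mem_univ x₀)]
  have hmain : HasOrd 𝒰 s (wh Ω z (σ x₀.1) (C (lam x₀) * T x₀))
      (-(((r - 1 : ℕ) : ℝ) * c) + α x₀.2.1 - (x₀.2.2 : ℕ)) := by
    rw [map_mul, wh_C]
    have h2 := hasOrd_mul (hasOrd_const (Ω := Ω) hs (c := algebraMap Kb Ω
      ((σ x₀.1).symm (lam x₀))) ?_) (hTi x₀)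
    · rwa [zero_add] at h2
    · intro h3
      rw [map_eq_zero, map_eq_zero] at h3
      exact hx₀' h3
  obtain ⟨β, hβ1, hβ2⟩ := gtOrd_sum (α := -(((r - 1 : ℕ) : ℝ) * c) + α x₀.2.1 - (x₀.2.2 : ℕ)) hs
    (Finset.univ.erase x₀) (fun x => wh Ω z (σ x₀.1) (C (lam x) * T x)) (by
      intro x hx
      by_cases hlx : lam x = 0
      · refine ⟨_, lt_add_one _, ?_⟩
        rw [hlx, C_0, zero_mul, map_zero]
        exact geOrd_zero
      have hxS : x ∈ S := Finset.mem_filter.2 ⟨Finset.mem_univ _, hlx⟩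
      have hle := hmin x hxS
      have hne : x ≠ x₀ := Finset.ne_of_mem_erase hx
      by_cases hi : x₀.1 = x.1
      · refine ⟨_, ?_, by
          rw [map_mul, wh_C]
          exact geOrd_mul (geOrd_const hs _) (by rw [hi]; exact hasOrd_ge hs (hTi x))⟩
        rw [zero_add]
        refine lt_of_le_of_ne hle ?_
        intro h1
        by_cases hj : x₀.2.1 = x.2.1
        · rw [hj] at h1
          have h2 : ((x₀.2.2 : ℕ) : ℝ) = (x.2.2 : ℕ) := by linarith
          have h3 : (x₀.2.2 : ℕ) = (x.2.2 : ℕ) := by exact_mod_cast h2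
          apply hne
          exact Prod.ext hi.symm (Prod.ext hj.symm (Fin.ext h3.symm))
        · apply hα _ _ hj (((x₀.2.2 : ℕ) : ℤ) - ((x.2.2 : ℕ) : ℤ))
          push_cast
          linarith
      · obtain ⟨β, h1, h2⟩ := hTo x₀.1 x hi
        refine ⟨0 + β, by linarith, ?_⟩
        rw [map_mul, wh_C]
        exact geOrd_mul (geOrd_const hs _) h2)
  have hfin := hasOrd_add hs hmain hβ2 hβ1
  rw [← hsplit] at hfin
  obtain ⟨n, h1, h2⟩ := (hfin.1.and hsum).exists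
  exact h1 h2

end D

end Pool.Agent.Helper62.RP
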